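import Pool.Agent.helper6.EU.SpecT

/-!
# Project eu (MP_ad8ced_nt), row TEM (helper1): the mean over the primes with arbitrary weights
-/

set_option autoImplicit false

open Finset

noncomputable section

namespace Pool.Agent.EU

open Pool.Agent.FI Pool.Agent.FJ

private theorem TEM_asy (η : ℝ) (hη : 0 < η) (k : ℕ) : ∃ N₀ : ℕ, ∀ N : ℕ, N₀ ≤ N →
    576 * Real.log N ^ k ≤ (N : ℝ) ^ (2 / 3 : ℝ) ∧ 32 ≤ (N : ℝ) ^ (η / 4) ∧ 24 ≤ Real.log N := by
  have h1 := (isLittleO_log_rpow_rpow_atTop (k : ℝ) (show (0 : ℝ) < 2 / 3 by norm_num)).bound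
    (show (0 : ℝ) < 1 / 576 by norm_num)
  have h2 := (tendsto_rpow_atTop (show 0 < η / 4 by positivity)).eventually_ge_atTop 32
  have h3 := Real.tendsto_log_atTop.eventually_ge_atTop 24
  have h4 := tendsto_natCast_atTop_atTop (R := ℝ) |>.eventually (h1.and (h2.and h3))
  obtain ⟨N₀, h5⟩ := Filter.eventually_atTop.1 h4
  refine ⟨N₀, fun N hN => ?_⟩
  obtain ⟨h6, h7, h8⟩ := h5 N hN
  refine ⟨?_, h7, h8⟩
  rw [Real.rpow_natCast, Real.norm_of_nonneg (by positivity),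
    Real.norm_of_nonneg (by positivity)] at h6
  linarith

private theorem TEM_nn (x A : ℕ) (hA : A ≤ x) (a l : ℤ) (ha1 : 1 ≤ a) (ha2 : a ≤ A)
    (hl1 : (x : ℤ) < l) (hl2 : l ≤ 2 * x) :
    (nn (a, l) : ℤ) = 8 * l ^ 2 - a ^ 2 ∧ x < nn (a, l) ∧ nn (a, l) ≤ 32 * x ^ 2 := by
  have hAx : (A : ℤ) ≤ x := by exact_mod_cast hA
  have hx0 : (0 : ℤ) ≤ x := Int.natCast_nonneg x
  have h1 : (x : ℤ) < 8 * l ^ 2 - a ^ 2 := by nlinarith
  have h2 : (nn (a, l) : ℤ) = 8 * l ^ 2 - a ^ 2 := by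
    unfold nn N8
    rw [Int.natCast_natAbs, abs_of_neg (by linarith)]
    ring
  refine ⟨h2, ?_, ?_⟩
  · have : (x : ℤ) < (nn (a, l) : ℤ) := by rw [h2]; exact h1
    exact_mod_cast this
  · have : (nn (a, l) : ℤ) ≤ 32 * (x : ℤ) ^ 2 := by rw [h2]; nlinarith
    exact_mod_cast this

/-- the terms that are not rough -/
private theorem TEM_R1 (x A Z : ℕ) (hA : A ≤ x) (l : ℤ) (hl1 : (x : ℤ) < l) (hl2 : l ≤ 2 * x)
    (M : ℝ) (hM : Real.log (32 * (x : ℝ) ^ 2) ≤ M) (h : ℤ → ℝ)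
    (hh : ∀ a : ℤ, h a = 0 ∨ (¬ RgN Z (nn (a, l)) ∧ h a = ArithmeticFunction.vonMangoldt (nn (a, l)))) :
    |∑ a ∈ Icc (1 : ℤ) A with a % 2 = 1, h a| ≤ (Z + 1) * (Nat.log 2 (32 * x ^ 2) + 1) * M := by
  classical
  have hx1 : 1 ≤ x ∨ x = 0 := by omega
  set J := Nat.log 2 (32 * x ^ 2) with hJ
  set T : Finset ℤ := {a ∈ Icc (1 : ℤ) A | h a ≠ 0} with hT
  have hsub : ∑ a ∈ Icc (1 : ℤ) A with a % 2 = 1, |h a| ≤ ∑ a ∈ T, |h a| := by
    have h1 : ∑ a ∈ Icc (1 : ℤ) A with a % 2 = 1, |h a| ≤ ∑ a ∈ Icc (1 : ℤ) A, |h a| :=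
      Finset.sum_le_sum_of_subset_of_nonneg (Finset.filter_subset _ _) fun _ _ _ => abs_nonneg _
    refine h1.trans (le_of_eq ?_)
    rw [hT, Finset.sum_filter]
    refine Finset.sum_congr rfl fun a _ => ?_
    split_ifs with h2
    · rfl
    · rw [not_not] at h2
      rw [h2, abs_zero]
  have hcard : #T ≤ (Z + 1) * (J + 1) := by
    have hinj : Set.InjOn (fun a : ℤ => nn (a, l)) (T : Set ℤ) := by
      intro a ha b hb hab
      rw [Finset.mem_coe, hT, mem_filter, mem_Icc] at ha hb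
      obtain ⟨h1, -, -⟩ := TEM_nn x A hA a l ha.1.1 ha.1.2 hl1 hl2
      obtain ⟨h2, -, -⟩ := TEM_nn x A hA b l hb.1.1 hb.1.2 hl1 hl2
      have h3 : (nn (a, l) : ℤ) = nn (b, l) := by exact_mod_cast hab
      rw [h1, h2] at h3
      have h4 : a ^ 2 = b ^ 2 := by linarith
      nlinarith [ha.1.1, hb.1.1, sq_eq_sq₀ (by linarith [ha.1.1] : (0 : ℤ) ≤ a) (by linarith [hb.1.1] : (0 : ℤ) ≤ b) |>.1 h4]
    have himg : T.image (fun a : ℤ => nn (a, l)) ⊆
        (range (Z + 1) ×ˢ range (J + 1)).image (fun t : ℕ × ℕ => t.1 ^ t.2) := by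
      intro n hn
      rw [mem_image] at hn
      obtain ⟨a, ha, rfl⟩ := hn
      rw [hT, mem_filter, mem_Icc] at ha
      obtain ⟨⟨ha1, ha2⟩, ha3⟩ := ha
      obtain ⟨-, h2, h3⟩ := TEM_nn x A hA a l ha1 ha2 hl1 hl2
      rcases hh a with h4 | ⟨h4, h5⟩
      · exact absurd h4 ha3
      · rw [h5, ArithmeticFunction.vonMangoldt_ne_zero_iff] at ha3
        rw [isPrimePow_nat_iff] at ha3
        obtain ⟨p, k, hp, hk, hpk⟩ := ha3
        unfold RgN at h4
        push Not at h4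
        obtain ⟨q, hq, hqn, hqZ⟩ := h4
        rw [← hpk] at hqn
        have h6 : q = p := (Nat.prime_dvd_prime_iff_eq hq hp).1 (hq.dvd_of_dvd_pow hqn)
        rw [mem_image]
        refine ⟨(p, k), ?_, hpk⟩
        rw [mem_product, mem_range, mem_range]
        refine ⟨by omega, ?_⟩
        have h7 : 2 ^ k ≤ 32 * x ^ 2 := by
          calc 2 ^ k ≤ p ^ k := Nat.pow_le_pow_left hp.two_le k
            _ = nn (a, l) := hpk
            _ ≤ 32 * x ^ 2 := h3
        have h8 : k ≤ J := by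
          rw [hJ]
          exact Nat.le_log_of_pow_le (by norm_num) h7
        show k < J + 1
        omega
    have h1 := Finset.card_le_card himg
    rw [Finset.card_image_of_injOn hinj] at h1
    refine h1.trans (Finset.card_image_le.trans ?_)
    rw [card_product, card_range, card_range]
  refine (Finset.abs_sum_le_sum_abs _ _).trans (hsub.trans ?_)
  have hterm : ∀ a ∈ T, |h a| ≤ M := by
    intro a ha
    rw [hT, mem_filter, mem_Icc] at ha
    obtain ⟨⟨ha1, ha2⟩, ha3⟩ := ha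
    obtain ⟨-, h2, h3⟩ := TEM_nn x A hA a l ha1 ha2 hl1 hl2
    rcases hh a with h4 | ⟨h4, h5⟩
    · exact absurd h4 ha3
    · rw [h5, abs_of_nonneg ArithmeticFunction.vonMangoldt_nonneg]
      refine ArithmeticFunction.vonMangoldt_le_log.trans (le_trans ?_ hM)
      refine Real.log_le_log (by exact_mod_cast (by omega : 0 < nn (a, l))) ?_
      exact_mod_cast h3
  refine (Finset.sum_le_card_nsmul _ _ _ hterm).trans ?_
  rw [nsmul_eq_mul]
  have hM0 : 0 ≤ M := by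
    refine le_trans ?_ hM
    rcases hx1 with h1 | h1
    · refine Real.log_nonneg ?_
      have : (1 : ℝ) ≤ x := by exact_mod_cast h1
      nlinarith
    · rw [h1]
      simp
  refine mul_le_mul_of_nonneg_right ?_ hM0
  exact_mod_cast hcard

/-- from the sum over `l` and `a` to the sum over `PZ` -/
private theorem TEM_PZ (x A : ℕ) (hA : A ≤ x) (lm : ℤ → ℝ)
    (hlm : ∀ l, lm l ≠ 0 → (x : ℤ) < l ∧ l ≤ 2 * x ∧ l.toNat.Prime) (F : ℤ × ℤ → ℝ) :
    ∑ l ∈ Ioc (x : ℤ) (2 * x), lm l * ∑ a ∈ Icc (1 : ℤ) A with a % 2 = 1, F (a, l) =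
      ∑ ζ ∈ PZ x A, lm ζ.2 * F ζ := by
  classical
  have hR : ∑ ζ ∈ PZ x A, lm ζ.2 * F ζ =
      ∑ l ∈ Ioc (x : ℤ) (2 * x), ∑ a ∈ Icc (1 : ℤ) A,
        if a % 2 = 1 ∧ IsCoprime a l then lm l * F (a, l) else 0 := by
    unfold PZ
    rw [Finset.sum_filter, Finset.sum_product_right]
  rw [hR]
  refine Finset.sum_congr rfl fun l _ => ?_
  rw [Finset.mul_sum, Finset.sum_filter]
  refine Finset.sum_congr rfl fun a ha => ?_
  rw [mem_Icc] at ha
  by_cases h0 : lm l = 0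
  · rw [h0]
    simp
  obtain ⟨h1, h2, h3⟩ := hlm l h0
  have hcop : IsCoprime a l := by
    have hAx : (A : ℤ) ≤ x := by exact_mod_cast hA
    have h4 : a = (a.toNat : ℤ) := by omega
    have h5 : l = (l.toNat : ℤ) := by omega
    rw [h4, h5, Nat.isCoprime_iff_coprime]
    refine Nat.Coprime.symm ((Nat.Prime.coprime_iff_not_dvd h3).2 fun h6 => ?_)
    have h7 := Nat.le_of_dvd (by omega) h6
    omega
  by_cases h6 : a % 2 = 1
  · rw [if_pos h6, if_pos ⟨h6, hcop⟩]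
  · rw [if_neg h6, if_neg fun h => h6 h.1]

theorem TEM (hTIB : TIB_stmt) (hTVR : TVR_stmt) (hTYU : TYU_stmt) (hVGI : VGI_stmt)
    (hSIZ : SIZ_stmt) : TEM_stmt := by
  classical
  intro η hη B
  obtain ⟨C₁, hTYU⟩ := hTYU η hη (B + 3)
  refine ⟨C₁, fun C₀ hC₀ => ?_⟩
  obtain ⟨x₁, hTYU⟩ := hTYU C₀ hC₀
  obtain ⟨x₂, hTIB⟩ := hTIB η hη (B + 3) C₀
  obtain ⟨x₃, hasy⟩ := TEM_asy η hη (2 * C₀ + 3 + B)
  refine ⟨x₁ + x₂ + x₃ + 2, ?_⟩
  intro x hx r hr1 hr2 A hA1 hA2 U V D hU1 hU2 hV1 hV2 hD1 hD2 lm hlm1 hlm2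
  obtain ⟨ha1, ha2, ha3⟩ := hasy x (by omega)
  set L := Real.log x with hL
  set Z := Zr r with hZ
  have hx1 : (1 : ℝ) ≤ x := by exact_mod_cast (by omega : 1 ≤ x)
  have hx0 : (0 : ℝ) < x := by linarith
  have hL1 : 1 ≤ L := by linarith
  have hL0 : 0 < L := by linarith
  -- sizes
  have hLk : L ^ (2 * C₀) ≤ (x : ℝ) ^ (2 / 3 : ℝ) := by
    have h1 : L ^ (2 * C₀) ≤ L ^ (2 * C₀ + 3 + B) := pow_le_pow_right₀ hL1 (by omega)
    have h2 : 0 ≤ L ^ (2 * C₀ + 3 + B) := by positivity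
    linarith
  have hZx : Z ≤ x := by
    have h1 : (x : ℝ) ^ (2 / 3 : ℝ) ≤ (x : ℝ) ^ (1 : ℝ) := Real.rpow_le_rpow_of_exponent_le hx1 (by norm_num)
    rw [Real.rpow_one] at h1
    have h2 : (Z : ℝ) ≤ x := hr2.trans (hLk.trans h1)
    exact_mod_cast h2
  have hU0 : 1 ≤ U := by
    have h1 : 0 < (x : ℝ) ^ (2 / 3 - η) := Real.rpow_pos_of_pos hx0 _
    have h2 : (0 : ℝ) < U := by linarith
    exact_mod_cast h2
  have hV0 : 1 ≤ V := by
    have h1 : 0 < (x : ℝ) ^ (2 / 3 - η) := Real.rpow_pos_of_pos hx0 _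
    have h2 : (0 : ℝ) < V := by linarith
    exact_mod_cast h2
  have hlt : (x : ℝ) ^ (2 / 3 - η / 4) ≤ (x : ℝ) ^ (2 / 3 + η / 4) :=
    Real.rpow_le_rpow_of_exponent_le hx1 (by linarith)
  have hUD : U ≤ D := by exact_mod_cast (hU2.trans (hlt.trans hD1))
  have hVD : V ≤ D := by exact_mod_cast (hV2.trans (hlt.trans hD1))
  have hUx : U ≤ x := by
    have h1 : (x : ℝ) ^ (2 / 3 - η / 4) ≤ (x : ℝ) ^ (1 : ℝ) := Real.rpow_le_rpow_of_exponent_le hx1 (by linarith)
    rw [Real.rpow_one] at h1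
    exact_mod_cast hU2.trans h1
  have hlog32 : Real.log (32 * (x : ℝ) ^ 2) ≤ 3 * L := by
    rw [Real.log_mul (by norm_num) (by positivity), Real.log_pow]
    have h1 : Real.log 32 ≤ 31 := by
      have := Real.log_le_sub_one_of_pos (show (0 : ℝ) < 32 by norm_num)
      linarith
    have h2 : Real.log 32 = 5 * Real.log 2 := by
      rw [show (32 : ℝ) = 2 ^ 5 by norm_num, Real.log_pow]
      norm_num
    have h3 : Real.log 2 < 0.6931471808 := Real.log_two_lt_d9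
    rw [h2]
    push_cast
    linarith
  have hlogX : Real.log ((32 * x ^ 2 : ℕ) : ℝ) ≤ 3 * L := by
    push_cast
    exact hlog32
  -- LamOK
  have hLam : LamOK x Z (2 * Real.log x) lm := by
    refine ⟨hlm1, fun l hl => ?_⟩
    obtain ⟨h1, h2, h3⟩ := hlm2 l hl
    refine ⟨h1, h2, fun g hg hgZ hgl => ?_⟩
    have h4 : l = (l.toNat : ℤ) := by omega
    rw [h4] at hgl
    have h5 : g ∣ l.toNat := by exact_mod_cast hgl
    have h6 : g = l.toNat := (Nat.prime_dvd_prime_iff_eq hg h3).1 h5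
    omega
  have hLC : L ^ C₁ ≤ (Z : ℝ) := (pow_le_pow_right₀ hL1 hC₀).trans hr1
  -- coefficients
  have hcoef1 : ∀ m, |bCc Z U V D m| ≤ 3 * Real.log x := by
    intro m
    unfold bCc
    split_ifs with h1
    · obtain ⟨-, -, -, -, h2, h3⟩ := hVGI U V m hU0 hV0 (by omega)
      by_cases h4 : U * V < m
      · rw [h3 h4, abs_zero]
        linarith
      · refine h2.trans ?_
        have hm0 : 0 < m := by omega
        have h5 : (m : ℝ) ≤ (x : ℝ) ^ 2 := by
          have h6 : m ≤ x ^ 2 := by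
            have h7 : V ≤ x := by
              have h1 : (x : ℝ) ^ (2 / 3 - η / 4) ≤ (x : ℝ) ^ (1 : ℝ) :=
                Real.rpow_le_rpow_of_exponent_le hx1 (by linarith)
              rw [Real.rpow_one] at h1
              exact_mod_cast hV2.trans h1
            have h8 : U * V ≤ x * x := Nat.mul_le_mul hUx h7
            rw [pow_two]
            omega
          exact_mod_cast h6
        have h6 : Real.log m ≤ Real.log ((x : ℝ) ^ 2) := Real.log_le_log (by exact_mod_cast hm0) h5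
        rw [Real.log_pow] at h6
        push_cast at h6
        linarith
    · rw [abs_zero]
      linarith
  have hcoef2 : ∀ m, |bMu Z V m| ≤ 3 * Real.log x := by
    intro m
    unfold bMu
    split_ifs with h1
    · have h2 : |ArithmeticFunction.moebius m| ≤ 1 := ArithmeticFunction.abs_moebius_le_one
      have h3 : |(ArithmeticFunction.moebius m : ℝ)| ≤ 1 := by exact_mod_cast h2
      linarith
    · rw [abs_zero]
      linarith
  have hcoef3 : ∀ k, |aOn Z k| ≤ 3 * Real.log x * #k.divisors := by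
    intro k
    unfold aOn
    split_ifs with h1
    · have h2 : 1 ≤ #k.divisors := Finset.card_pos.2 (Nat.nonempty_divisors.2 (by omega))
      have h3 : (1 : ℝ) ≤ #k.divisors := by exact_mod_cast h2
      rw [abs_one]
      nlinarith
    · rw [abs_zero]
      positivity
  have hcoef4 : ∀ k, |aLm Z U (32 * x ^ 2) k| ≤ 3 * Real.log x * #k.divisors := by
    intro k
    unfold aLm
    split_ifs with h1
    · have h2 : 1 ≤ #k.divisors := Finset.card_pos.2 (Nat.nonempty_divisors.2 (by omega))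
      have h3 : (1 : ℝ) ≤ #k.divisors := by exact_mod_cast h2
      have h4 : ∑ m ∈ k.divisors with U < m, ArithmeticFunction.vonMangoldt m ≤ Real.log k := by
        rw [← ArithmeticFunction.vonMangoldt_sum]
        exact Finset.sum_le_sum_of_subset_of_nonneg (Finset.filter_subset _ _)
          fun _ _ _ => ArithmeticFunction.vonMangoldt_nonneg
      have h5 : Real.log k ≤ 3 * L := by
        refine (Real.log_le_log (by exact_mod_cast (by omega : 0 < k)) ?_).trans hlogX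
        exact_mod_cast h1.2.1
      have h6 : 0 ≤ ∑ m ∈ k.divisors with U < m, ArithmeticFunction.vonMangoldt m :=
        Finset.sum_nonneg fun _ _ => ArithmeticFunction.vonMangoldt_nonneg
      rw [abs_of_nonneg h6]
      nlinarith
    · rw [abs_zero]
      positivity
  have h43 : ((U * V : ℕ) : ℝ) ≤ (x : ℝ) ^ (4 / 3 + 5 * η / 4) := by
    push_cast
    calc (U : ℝ) * V ≤ (x : ℝ) ^ (2 / 3 - η / 4) * (x : ℝ) ^ (2 / 3 - η / 4) :=
          mul_le_mul hU2 hV2 (Nat.cast_nonneg V) (by positivity)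
      _ = (x : ℝ) ^ (2 / 3 - η / 4 + (2 / 3 - η / 4)) := by rw [Real.rpow_add hx0]
      _ ≤ (x : ℝ) ^ (4 / 3 + 5 * η / 4) := Real.rpow_le_rpow_of_exponent_le hx1 (by linarith)
  have hU4 : (U : ℝ) * (x : ℝ) ^ (η / 4) ≤ D := by
    calc (U : ℝ) * (x : ℝ) ^ (η / 4) ≤ (x : ℝ) ^ (2 / 3 - η / 4) * (x : ℝ) ^ (η / 4) :=
          mul_le_mul_of_nonneg_right hU2 (by positivity)
      _ = (x : ℝ) ^ (2 / 3 - η / 4 + η / 4) := by rw [Real.rpow_add hx0]
      _ ≤ (x : ℝ) ^ (2 / 3 + η / 4) := Real.rpow_le_rpow_of_exponent_le hx1 (by linarith)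
      _ ≤ D := hD1
  have hV4 : (V : ℝ) * (x : ℝ) ^ (η / 4) ≤ D := by
    calc (V : ℝ) * (x : ℝ) ^ (η / 4) ≤ (x : ℝ) ^ (2 / 3 - η / 4) * (x : ℝ) ^ (η / 4) :=
          mul_le_mul_of_nonneg_right hV2 (by positivity)
      _ = (x : ℝ) ^ (2 / 3 - η / 4 + η / 4) := by rw [Real.rpow_add hx0]
      _ ≤ (x : ℝ) ^ (2 / 3 + η / 4) := Real.rpow_le_rpow_of_exponent_le hx1 (by linarith)
      _ ≤ D := hD1
  -- the two type II sums
  have hT1 := hTYU x (by omega) Z hr1 hr2 Z lm hLC hLam A hA1 hA2 (bCc Z U V D) (aOn Z)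
    (Or.inr ⟨U, V, D, hU4, hV4, rfl⟩) hcoef1 hcoef3 (by
      intro m k _ hne
      have hm : bCc Z U V D m ≠ 0 := left_ne_zero_of_mul hne
      unfold bCc at hm
      split_ifs at hm with h1
      · obtain ⟨-, -, -, -, -, h3⟩ := hVGI U V m hU0 hV0 (by omega)
        refine ⟨?_, ?_⟩
        · have h4 : (D : ℝ) ≤ m := by exact_mod_cast h1.1.le
          refine le_trans ?_ h4
          refine le_trans ?_ hD1
          exact Real.rpow_le_rpow_of_exponent_le hx1 (by linarith)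
        · have h4 : m ≤ U * V := by
            by_contra h5
            exact hm (h3 (by omega))
          refine le_trans ?_ h43
          exact_mod_cast h4
      · exact absurd rfl hm)
  have hT2 := hTYU x (by omega) Z hr1 hr2 Z lm hLC hLam A hA1 hA2 (bMu Z V) (aLm Z U (32 * x ^ 2))
    (Or.inl ⟨V, rfl⟩) hcoef2 hcoef4 (by
      intro m k hmk hne
      have hm : bMu Z V m ≠ 0 := left_ne_zero_of_mul hne
      have hk : aLm Z U (32 * x ^ 2) k ≠ 0 := right_ne_zero_of_mul hne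
      unfold bMu at hm
      split_ifs at hm with h1
      · unfold aLm at hk
        split_ifs at hk with h2
        · have hUk : U < k := by
            obtain ⟨d, hd, -⟩ := Finset.exists_ne_zero_of_sum_ne_zero hk
            rw [mem_filter, Nat.mem_divisors] at hd
            have := Nat.le_of_dvd (by omega) hd.1.1
            omega
          refine ⟨?_, ?_⟩
          · have h4 : (V : ℝ) ≤ m := by exact_mod_cast h1.1.le
            exact hV1.trans h4
          · have h5 : (x : ℝ) ^ (2 / 3 - η) ≤ k := hU1.trans (by exact_mod_cast hUk.le)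
            have h6 : (m : ℝ) * k ≤ 32 * (x : ℝ) ^ 2 := by exact_mod_cast hmk
            have h7 : 0 < (x : ℝ) ^ (2 / 3 - η) := Real.rpow_pos_of_pos hx0 _
            have h8 : (m : ℝ) * (x : ℝ) ^ (2 / 3 - η) ≤ 32 * (x : ℝ) ^ 2 :=
              (mul_le_mul_of_nonneg_left h5 (Nat.cast_nonneg m)).trans h6
            have h9 : (32 : ℝ) * (x : ℝ) ^ 2 ≤ (x : ℝ) ^ (4 / 3 + 5 * η / 4) * (x : ℝ) ^ (2 / 3 - η) := by
              rw [← Real.rpow_add hx0]
              have h10 : (4 / 3 + 5 * η / 4 + (2 / 3 - η) : ℝ) = η / 4 + (2 : ℕ) := by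
                push_cast
                ring
              rw [h10, Real.rpow_add hx0, Real.rpow_natCast]
              exact mul_le_mul_of_nonneg_right ha2 (by positivity)
            exact le_of_mul_le_mul_right (h8.trans h9) h7
        · exact absurd rfl hk
      · exact absurd rfl hm)
  rw [← TEM_PZ x A hA2 lm hlm2 (fun ζ => ∑ m ∈ (nn ζ).divisors, bCc Z U V D m * aOn Z (nn ζ / m))] at hT1
  rw [← TEM_PZ x A hA2 lm hlm2 (fun ζ => ∑ m ∈ (nn ζ).divisors, bMu Z V m * aLm Z U (32 * x ^ 2) (nn ζ / m))] at hT2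
  -- decomposition
  set h1f : ℤ → ℤ → ℝ := fun l a => if RgN Z (nn (a, l)) then 0 else ArithmeticFunction.vonMangoldt (nn (a, l)) with hh1f
  have hdec : ∀ l ∈ Ioc (x : ℤ) (2 * x), lm l * (Ls A l - Mn r U V D A l) =
      lm l * (∑ a ∈ Icc (1 : ℤ) A with a % 2 = 1, h1f l a)
      + lm l * (∑ a ∈ Icc (1 : ℤ) A with (a % 2 = 1 ∧ RgN (Zr r) (nn (a, l))),
      (∑ d ∈ (nn (a, l)).divisors with d ≤ V, (ArithmeticFunction.moebius d : ℝ) * Real.log (nn (a, l) / d : ℝ) - ∑ q ∈ (nn (a, l)).divisors with q ≤ D, cc U V q)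
      - Mn r U V D A l)
      - lm l * (∑ a ∈ Icc (1 : ℤ) A with a % 2 = 1, ∑ m ∈ (nn (a, l)).divisors, bCc Z U V D m * aOn Z (nn (a, l) / m))
      + lm l * (∑ a ∈ Icc (1 : ℤ) A with a % 2 = 1, ∑ m ∈ (nn (a, l)).divisors, bMu Z V m * aLm Z U (32 * x ^ 2) (nn (a, l) / m)) := by
    intro l hl
    rw [mem_Ioc] at hl
    have h1 : Ls A l = (∑ a ∈ Icc (1 : ℤ) A with a % 2 = 1, h1f l a)
        + (∑ a ∈ Icc (1 : ℤ) A with (a % 2 = 1 ∧ RgN (Zr r) (nn (a, l))),
          (∑ d ∈ (nn (a, l)).divisors with d ≤ V, (ArithmeticFunction.moebius d : ℝ) * Real.log (nn (a, l) / d : ℝ) - ∑ q ∈ (nn (a, l)).divisors with q ≤ D, cc U V q))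
        - (∑ a ∈ Icc (1 : ℤ) A with a % 2 = 1, ∑ m ∈ (nn (a, l)).divisors, bCc Z U V D m * aOn Z (nn (a, l) / m))
        + (∑ a ∈ Icc (1 : ℤ) A with a % 2 = 1, ∑ m ∈ (nn (a, l)).divisors, bMu Z V m * aLm Z U (32 * x ^ 2) (nn (a, l) / m)) := by
      unfold Ls
      rw [← Finset.filter_filter, Finset.sum_filter (fun a : ℤ => RgN (Zr r) (nn (a, l))), ← Finset.sum_add_distrib,
        ← Finset.sum_sub_distrib, ← Finset.sum_add_distrib]
      refine Finset.sum_congr rfl fun a ha => ?_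
      rw [mem_filter, mem_Icc] at ha
      obtain ⟨-, h2, h3⟩ := TEM_nn x A hA2 a l ha.1.1 ha.1.2 hl.1 hl.2
      have h4 := hTVR Z U V D (32 * x ^ 2) (nn (a, l)) hU0 hV0 (by omega) h3
      have h5 : ArithmeticFunction.vonMangoldt (nn (a, l)) = h1f l a + (if RgN Z (nn (a, l)) then ArithmeticFunction.vonMangoldt (nn (a, l)) else 0) := by
        rw [hh1f]
        dsimp only
        split_ifs <;> ring
      rw [h5, h4]
      ring
    rw [h1]
    ring
  rw [Finset.sum_congr rfl hdec, Finset.sum_add_distrib, Finset.sum_sub_distrib, Finset.sum_add_distrib]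
  -- the first two sums
  have hcardI : #(Ioc (x : ℤ) (2 * x)) = x := by
    rw [Int.card_Ioc]
    omega
  have hgen : ∀ (t : ℤ → ℝ) (c : ℝ), (∀ l, lm l ≠ 0 → |t l| ≤ c) → 0 ≤ c →
      |∑ l ∈ Ioc (x : ℤ) (2 * x), lm l * t l| ≤ x * (2 * L * c) := by
    intro t c ht hc
    refine (Finset.abs_sum_le_sum_abs _ _).trans ?_
    have h1 : ∀ l ∈ Ioc (x : ℤ) (2 * x), |lm l * t l| ≤ 2 * L * c := by
      intro l _
      by_cases h0 : lm l = 0
      · rw [h0, zero_mul, abs_zero]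
        positivity
      · rw [abs_mul]
        exact mul_le_mul (hlm1 l) (ht l h0) (abs_nonneg _) (by positivity)
    refine (Finset.sum_le_card_nsmul _ _ _ h1).trans ?_
    rw [hcardI, nsmul_eq_mul]
  have hS1 := hgen (fun l => ∑ a ∈ Icc (1 : ℤ) A with a % 2 = 1, h1f l a)
    ((Z + 1) * (Nat.log 2 (32 * x ^ 2) + 1) * (3 * L)) (by
      intro l hl
      obtain ⟨h1, h2, h3⟩ := hlm2 l hl
      refine TEM_R1 x A Z hA2 l h1 h2 (3 * L) hlog32 (h1f l) fun a => ?_
      by_cases h4 : RgN Z (nn (a, l))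
      · left
        rw [hh1f]
        exact if_pos h4
      · right
        refine ⟨h4, ?_⟩
        rw [hh1f]
        exact if_neg h4) (by positivity)
  have hS2 := hgen (fun l => ∑ a ∈ Icc (1 : ℤ) A with (a % 2 = 1 ∧ RgN (Zr r) (nn (a, l))),
      (∑ d ∈ (nn (a, l)).divisors with d ≤ V, (ArithmeticFunction.moebius d : ℝ) * Real.log (nn (a, l) / d : ℝ) - ∑ q ∈ (nn (a, l)).divisors with q ≤ D, cc U V q)
      - Mn r U V D A l) (A / L ^ (B + 3)) (by
      intro l hl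
      obtain ⟨h1, h2, h3⟩ := hlm2 l hl
      refine hTIB x (by omega) r hr2 A hA1 hA2 U V D (hV2.trans ?_) hD2 l h1 h2 h3
      exact Real.rpow_le_rpow_of_exponent_le hx1 (by linarith)) (by positivity)
  -- the logarithm
  have hlogJ : (Nat.log 2 (32 * x ^ 2) : ℝ) + 1 ≤ 6 * L := by
    have h1 : (2 : ℝ) ^ (Nat.log 2 (32 * x ^ 2)) ≤ ((32 * x ^ 2 : ℕ) : ℝ) := by
      exact_mod_cast Nat.pow_log_le_self 2 (by
        have : 0 < x := by omega
        positivity)
    have h2 := Real.log_le_log (by positivity) h1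
    rw [Real.log_pow] at h2
    have h3 : (0.6931471803 : ℝ) < Real.log 2 := Real.log_two_gt_d9
    have h4 : (Nat.log 2 (32 * x ^ 2) : ℝ) * Real.log 2 ≤ 3 * L := h2.trans hlogX
    have h5 : (Nat.log 2 (32 * x ^ 2) : ℝ) * 0.6 ≤ 3 * L := by
      refine le_trans (mul_le_mul_of_nonneg_left ?_ (Nat.cast_nonneg _)) h4
      linarith
    linarith
  have hZ1 : (Z : ℝ) + 1 ≤ 2 * L ^ (2 * C₀) := by
    have h1 : 1 ≤ L ^ (2 * C₀) := one_le_pow₀ hL1
    have h2 : (Z : ℝ) ≤ L ^ (2 * C₀) := hr2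
    linarith
  have hS1' : |∑ l ∈ Ioc (x : ℤ) (2 * x), lm l * ∑ a ∈ Icc (1 : ℤ) A with a % 2 = 1, h1f l a| ≤ A * x / (8 * L ^ B) := by
    refine hS1.trans ?_
    have h1 : (x : ℝ) * (2 * L * ((Z + 1) * (Nat.log 2 (32 * x ^ 2) + 1) * (3 * L))) ≤
        x * (2 * L * ((2 * L ^ (2 * C₀)) * (6 * L) * (3 * L))) := by
      gcongr
    refine h1.trans ?_
    rw [le_div_iff₀ (by positivity)]
    have h2 : (x : ℝ) * (2 * L * ((2 * L ^ (2 * C₀)) * (6 * L) * (3 * L))) * (8 * L ^ B) =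
        x * (576 * L ^ (2 * C₀ + 3 + B)) := by
      rw [pow_add, pow_add]
      ring
    rw [h2, mul_comm (A : ℝ) x]
    refine mul_le_mul_of_nonneg_left (ha1.trans (le_trans ?_ hA1)) hx0.le
    exact Real.rpow_le_rpow_of_exponent_le hx1 (by linarith)
  have hS2' : |∑ l ∈ Ioc (x : ℤ) (2 * x), lm l * (∑ a ∈ Icc (1 : ℤ) A with (a % 2 = 1 ∧ RgN (Zr r) (nn (a, l))),
      (∑ d ∈ (nn (a, l)).divisors with d ≤ V, (ArithmeticFunction.moebius d : ℝ) * Real.log (nn (a, l) / d : ℝ) - ∑ q ∈ (nn (a, l)).divisors with q ≤ D, cc U V q)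
      - Mn r U V D A l)| ≤ A * x / (8 * L ^ B) := by
    refine hS2.trans ?_
    rw [le_div_iff₀ (by positivity)]
    have h1 : (x : ℝ) * (2 * L * (A / L ^ (B + 3))) * (8 * L ^ B) = A * x * (16 / L ^ 2) := by
      rw [pow_add]
      field_simp
      ring
    rw [h1]
    refine mul_le_of_le_one_right (by positivity) ?_
    rw [div_le_one (by positivity)]
    nlinarith
  have hTb : (A : ℝ) * x / L ^ (B + 3) ≤ A * x / (8 * L ^ B) := by
    refine div_le_div_of_nonneg_left (by positivity) (by positivity) ?_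
    rw [pow_add, mul_comm]
    refine mul_le_mul_of_nonneg_left ?_ (by positivity)
    have : (24 : ℝ) ^ 3 ≤ L ^ 3 := pow_le_pow_left₀ (by norm_num) ha3 3
    linarith
  have hfin : (A : ℝ) * x / L ^ B = 8 * (A * x / (8 * L ^ B)) := by
    field_simp
  have hnn : 0 ≤ (A : ℝ) * x / (8 * L ^ B) := by positivity
  have hT1' := hT1.trans hTb
  have hT2' := hT2.trans hTb
  rw [hfin]
  rw [abs_le] at hS1' hS2' hT1' hT2' ⊢
  constructor <;> linarith [hS1'.1, hS1'.2, hS2'.1, hS2'.2, hT1'.1, hT1'.2, hT2'.1, hT2'.2]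

end Pool.Agent.EU
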